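import Pool.Agent.TH403.FLP.Parts

set_option autoImplicit false
set_option linter.unusedSectionVars false

/-!
# Flipped graphs: the number of components of a flipped graph
-/

namespace Pool.Agent.TH403.FLP

open Finset Classical
open Pool.Agent.H234RC (Hypo NonIso)
open Pool.Agent.TH87.RVE (comps comp rch RR comp_closed_eq comp_of_mem comp_closed comps_sub
  comps_nonempty mem_comps comp_self lt_sq)

variable {V : Type} [Fintype V]

/-- the size of a big part -/
def th (k D : ℕ) : ℕ := D + 2 * k + 2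

/-- the number of exceptions -/
def kk (k D : ℕ) : ℕ := D + k + 1

/-- the size of a large class -/
def S00 (r k D : ℕ) : ℕ := r * th k D + 2 * kk k D + 2

theorem exists_tt (N : ℕ) : ∃ t : ℕ, 2 * (N : ℝ) < (3 / 2 : ℝ) ^ t :=
  pow_unbounded_of_one_lt _ (by norm_num)

/-- the exponent -/
noncomputable def tt (N : ℕ) : ℕ := Nat.find (exists_tt N)

theorem tt_spec (N : ℕ) : 2 * (N : ℝ) < (3 / 2 : ℝ) ^ tt N := Nat.find_spec (exists_tt N)

/-- the bound for given thresholds -/
noncomputable def FB (r k D S : ℕ) : ℕ :=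
  tt ((r * S).factorial * r.factorial) ^ 2 + r * th k D * (r * kk k D) + (r * S + r * th k D)

section core

variable (G : SimpleGraph V) {r : ℕ} (f : V → Fin r) (M : Fin r → Fin r → Prop)
  (hM : ∀ i j, M i j → M j i) (k : ℕ) (hk : ∀ x, (nb G f M x).card ≤ k)

include hk in
theorem card_sm (D S : ℕ) (hD : 2 * k ≤ D)
    (hg : ∀ x y, dd G x y ≤ D ∨ 2 * D + 2 ≤ dd G x y) : (sm G D S).card ≤ r * S := by
  apply card_le_parts f
  intro i
  by_cases hne : ((sm G D S).filter (fun x => f x = i)).Nonempty
  · obtain ⟨z, hz⟩ := hne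
    rw [mem_filter, mem_sm] at hz
    refine le_trans (card_le_card ?_) hz.1
    intro x hx
    rw [mem_filter] at hx
    rw [← cl_part G f M k hk D hD hg x z (hx.2.trans hz.2.symm)]
    exact self_mem_cl G D x
  · rw [not_nonempty_iff_eq_empty] at hne
    rw [hne, card_empty]
    exact Nat.zero_le _

theorem card_small_parts (θ : ℕ) :
    (univ.filter (fun x : V => (part f (f x)).card ≤ θ)).card ≤ r * θ := by
  apply card_le_parts f
  intro i
  by_cases hne : ((univ.filter (fun x : V => (part f (f x)).card ≤ θ)).filter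
      (fun x => f x = i)).Nonempty
  · obtain ⟨z, hz⟩ := hne
    rw [mem_filter, mem_filter] at hz
    have h1 := hz.1.2
    rw [hz.2] at h1
    refine le_trans (card_le_card ?_) h1
    intro x hx
    rw [mem_filter] at hx
    exact (mem_part f i x).mpr hx.2
  · rw [not_nonempty_iff_eq_empty] at hne
    rw [hne, card_empty]
    exact Nat.zero_le _

include hk in
theorem exists_big (D θ : ℕ) (hD : 2 * k ≤ D)
    (hg : ∀ x y, dd G x y ≤ D ∨ 2 * D + 2 ≤ dd G x y) (x : V)
    (hx : r * θ < (cl G D x).card) : ∃ i, θ < (part f i).card ∧ part f i ⊆ cl G D x := by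
  by_contra hcon
  push Not at hcon
  have h := card_le_parts f (cl G D x) θ (fun i => ?_)
  · omega
  by_cases hne : ((cl G D x).filter (fun y => f y = i)).Nonempty
  · obtain ⟨z, hz⟩ := hne
    rw [mem_filter] at hz
    have hsub : part f i ⊆ cl G D x := by
      intro y hy
      rw [mem_part] at hy
      have e1 := cl_part G f M k hk D hD hg y z (hy.trans hz.2.symm)
      have e2 := (cl_eq G D hg x z).mpr ((mem_cl G D x z).mp hz.1)
      rw [e2, ← e1]
      exact self_mem_cl G D y
    have h1 : (part f i).card ≤ θ := by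
      by_contra h2
      exact hcon i (not_le.mp h2) hsub
    refine le_trans (card_le_card ?_) h1
    intro y hy
    rw [mem_filter] at hy
    exact (mem_part f i y).mpr hy.2
  · rw [not_nonempty_iff_eq_empty] at hne
    rw [hne, card_empty]
    exact Nat.zero_le _

include hk in
theorem core {H : SimpleGraph V} {π : V → Equiv.Perm V} (hH : Hypo G H π) (hN : NonIso G H)
    (D S : ℕ) (hD : 2 * k ≤ D)
    (h1 : ∀ x y, dd G x y ≤ D ∨ 2 * D + 5 ≤ dd G x y)
    (h2 : ∀ x, (cl G D x).card ≤ S ∨ S + 3 ≤ (cl G D x).card)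
    (hS : S00 r k D ≤ S) : (comps (flipG G f M hM) univ).card ≤ FB r k D S := by
  have hg : ∀ x y, dd G x y ≤ D ∨ 2 * D + 2 ≤ dd G x y := fun x y => by
    rcases h1 x y with h | h
    · exact Or.inl h
    · exact Or.inr (by omega)
  have hsm := card_sm G f M k hk D S hD hg
  set A := sm G D S with hA
  set L := lg G D S with hL
  have hAL : ∀ v, v ∈ L ↔ v ∉ A := fun v => mem_lg G D S v
  by_cases hne : L.Nonempty
  swap
  · have h3 : (univ : Finset V) ⊆ A := by
      intro v _
      by_contra hv
      exact hne ⟨v, (hAL v).mpr hv⟩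
    have h4 := card_le_card h3
    have h5 : (comps (flipG G f M hM) univ).card ≤ (univ : Finset V).card := by
      unfold comps
      exact card_image_le
    unfold FB
    omega
  set θ := th k D with hθ
  set k0 := kk k D with hk0
  have hθ' : θ = D + 2 * k + 2 := rfl
  have hk0' : k0 = D + k + 1 := rfl
  have hS' : r * θ + 2 * k0 + 2 ≤ S := hS
  obtain ⟨i0, hi0⟩ := hne
  have hr : Nonempty (Fin r) := ⟨f i0⟩
  let jj : Finset V → Fin r := fun C =>
    Classical.epsilon (fun i => θ < (part f i).card ∧ part f i ⊆ C)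
  have hjj : ∀ x ∈ L, θ < (part f (jj (cl G D x))).card ∧ part f (jj (cl G D x)) ⊆ cl G D x := by
    intro x hx
    rw [hAL, hA, mem_sm] at hx
    exact Classical.epsilon_spec (exists_big G f M k hk D θ hD hg x (by omega))
  let m : V → V → Prop := fun x y => M (jj (cl G D x)) (jj (cl G D y))
  have hms : ∀ x y, m x y → m y x := fun x y h => hM _ _ h
  have hmc : ∀ x x' y, dd G x x' ≤ D → (m x y ↔ m x' y) := by
    intro x x' y h
    show M (jj (cl G D x)) (jj (cl G D y)) ↔ M (jj (cl G D x')) (jj (cl G D y))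
    rw [(cl_eq G D hg x x').mpr h]
  have hMs : ∀ i j, M i j ↔ M j i := fun i j => ⟨hM i j, hM j i⟩
  -- rows
  have hrow : ∀ x ∈ L, ∀ z ∈ cl G D x, ∀ l, θ < (part f l).card →
      (M (f z) l ↔ M (jj (cl G D x)) l) := by
    intro x hx z hz l hl
    obtain ⟨hb, hsub⟩ := hjj x hx
    obtain ⟨x1, hx1⟩ : (part f (jj (cl G D x))).Nonempty := card_pos.mp (by omega)
    have hfx1 := (mem_part f _ x1).mp hx1
    rw [← hfx1]
    apply row_eq G f M k hk D z x1 l ?_ hl
    rw [← cl_eq G D hg]
    rw [mem_cl, ← cl_eq G D hg] at hz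
    have h3 := hsub hx1
    rw [mem_cl, ← cl_eq G D hg] at h3
    rw [← hz, h3]
  have hm : ∀ x y, x ∈ L → y ∈ L →
      ((cl G D y).filter (fun z => z ≠ x ∧ ¬ (G.Adj x z ↔ m x y))).card ≤ k0 := by
    intro x y hx hy
    obtain ⟨hb, hsub⟩ := hjj x hx
    obtain ⟨x1, hx1⟩ : (part f (jj (cl G D x))).Nonempty := card_pos.mp (by omega)
    have hfx1 := (mem_part f _ x1).mp hx1
    have hsub2 : (cl G D y).filter (fun z => z ≠ x ∧ ¬ (G.Adj x z ↔ m x y)) ⊆
        ds G x x1 ∪ (nb G f M x1 ∪ {x1}) := by
      intro z hz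
      rw [mem_filter] at hz
      obtain ⟨hzy, hzx, hz⟩ := hz
      rw [mem_union, mem_union, mem_singleton, mem_ds, mem_nb]
      by_contra hc
      rw [not_or, not_or] at hc
      obtain ⟨c1, c2, c3⟩ := hc
      apply hz
      have e1 : G.Adj x z ↔ G.Adj x1 z := by
        by_contra h
        exact c1 ⟨hzx, c3, h⟩
      have e2 : G.Adj x1 z ↔ M (f x1) (f z) := by
        by_contra h
        exact c2 ⟨c3, h⟩
      have e3 := hrow y hy z hzy (jj (cl G D x)) hb
      rw [e1, e2, hfx1, hMs, e3, hMs]
    have h3 := card_le_card hsub2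
    have h4 := card_union_le (ds G x x1) (nb G f M x1 ∪ {x1})
    have h5 := card_union_le (nb G f M x1) {x1}
    rw [card_singleton] at h5
    have h6 := hk x1
    have h7 : (ds G x x1).card ≤ D := (mem_cl G D x x1).mp (hsub hx1)
    omega
  obtain ⟨s, hs1, hs2⟩ := rec_bound hH hN D S k0 h1 h2 (by omega) m hms hmc hm ⟨i0, hi0⟩
  -- the number of classes
  have hcl : (L.image (cl G D)).card ≤ r := by
    have hsub : L.image (cl G D) ⊆ (univ : Finset (Fin r)).image
        (fun i => if h : ∃ x, f x = i then cl G D h.choose else ∅) := by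
      intro C hC
      obtain ⟨x, _, rfl⟩ := mem_image.mp hC
      rw [mem_image]
      refine ⟨f x, mem_univ _, ?_⟩
      have h : ∃ y, f y = f x := ⟨x, rfl⟩
      rw [dif_pos h]
      exact cl_part G f M k hk D hD hg _ _ h.choose_spec
    have h3 := card_le_card hsub
    have h4 : ((univ : Finset (Fin r)).image
        (fun i => if h : ∃ x, f x = i then cl G D h.choose else ∅)).card ≤
        (univ : Finset (Fin r)).card := card_image_le
    rw [card_univ, Fintype.card_fin] at h4
    omega
  set K := flipR G m hms with hK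
  have hlt : (comps K L).card < tt ((r * S).factorial * r.factorial) ^ 2 := by
    apply lt_sq _ _ ⟨s, hs1, hs2⟩
    refine lt_of_le_of_lt ?_ (tt_spec _)
    have h3 : A.card.factorial * ((L.image (cl G D)).card).factorial ≤
        (r * S).factorial * r.factorial :=
      Nat.mul_le_mul (Nat.factorial_le hsm) (Nat.factorial_le hcl)
    have h4 : ((A.card.factorial * ((L.image (cl G D)).card).factorial : ℕ) : ℝ) ≤
        (((r * S).factorial * r.factorial : ℕ) : ℝ) := by exact_mod_cast h3
    linarith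
  -- the vertices in big parts
  set U := L.filter (fun x => θ < (part f (f x)).card) with hU
  have hUL : U ⊆ L := filter_subset _ _
  have hagree : ∀ x ∈ U, ∀ y ∈ U, (K.Adj x y ↔ (flipG G f M hM).Adj x y) := by
    intro x hx y hy
    rw [hU, mem_filter] at hx hy
    show (x ≠ y ∧ ¬ (G.Adj x y ↔ m x y)) ↔ (x ≠ y ∧ ¬ (G.Adj x y ↔ M (f x) (f y)))
    have e1 := hrow x hx.1 x (self_mem_cl G D x) (jj (cl G D y)) (hjj y hy.1).1
    have e2 := hrow y hy.1 y (self_mem_cl G D y) (f x) hx.2
    have e3 : m x y ↔ M (f x) (f y) := by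
      show M (jj (cl G D x)) (jj (cl G D y)) ↔ M (f x) (f y)
      rw [← e1, hMs, ← e2, hMs]
    rw [e3]
  have hcongr := comps_congr K (flipG G f M hM) U hagree
  -- degrees
  have hdeg : ∀ y ∈ L, (L.filter (fun x => K.Adj y x)).card ≤ r * k0 := by
    intro y hy
    apply card_le_parts f
    intro i
    by_cases hne : ((L.filter (fun x => K.Adj y x)).filter (fun x => f x = i)).Nonempty
    · obtain ⟨z, hz⟩ := hne
      rw [mem_filter, mem_filter] at hz
      refine le_trans (card_le_card ?_) (hm y z hy hz.1.1)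
      intro x hx
      rw [mem_filter, mem_filter] at hx
      have e1 := cl_part G f M k hk D hD hg x z (hx.2.trans hz.2.symm)
      have hxy : y ≠ x ∧ ¬ (G.Adj y x ↔ m y x) := hx.1.2
      rw [mem_filter]
      refine ⟨?_, hxy.1.symm, ?_⟩
      · rw [← e1]; exact self_mem_cl G D x
      · intro h
        apply hxy.2
        rw [h]
        show M (jj (cl G D y)) (jj (cl G D z)) ↔ M (jj (cl G D y)) (jj (cl G D x))
        rw [e1]
    · rw [not_nonempty_iff_eq_empty] at hne
      rw [hne, card_empty]
      exact Nat.zero_le _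
  have hsmall := card_small_parts f θ
  have hLU : (L \ U).card ≤ r * θ := by
    refine le_trans (card_le_card ?_) hsmall
    intro x hx
    rw [mem_sdiff, hU, mem_filter] at hx
    rw [mem_filter]
    refine ⟨mem_univ _, ?_⟩
    by_contra h
    exact hx.2 ⟨hx.1, not_le.mp h⟩
  have hVU : (univ \ U).card ≤ r * S + r * θ := by
    have hsub : univ \ U ⊆ A ∪ univ.filter (fun x : V => (part f (f x)).card ≤ θ) := by
      intro x hx
      rw [mem_sdiff, hU, mem_filter] at hx
      rw [mem_union, mem_filter]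
      by_cases hxA : x ∈ A
      · exact Or.inl hxA
      · right
        refine ⟨mem_univ _, ?_⟩
        by_contra h
        exact hx.2 ⟨(hAL x).mpr hxA, not_le.mp h⟩
    have h3 := card_le_card hsub
    have h4 := card_union_le A (univ.filter (fun x : V => (part f (f x)).card ≤ θ))
    omega
  have g1 := comps_le_add (flipG G f M hM) U univ (subset_univ _)
  have g2 := comps_le_add_deg K U L hUL (r * k0) (fun y hy => hdeg y (mem_sdiff.mp hy).1)
  rw [hcongr] at g2
  have g3 : (L \ U).card * (r * k0) ≤ r * θ * (r * k0) := Nat.mul_le_mul_right _ hLU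
  unfold FB
  rw [← hθ, ← hk0]
  omega

/-- the bound -/
noncomputable def BB (r k : ℕ) : ℕ :=
  ∑ t ∈ range (r * r + 1), ∑ u ∈ range (r + 1),
    (FB r k (Dq k t) (S00 r k (Dq k t) + 2 * u) + 1)

include hk in
theorem parts_bound {H : SimpleGraph V} {π : V → Equiv.Perm V} (hH : Hypo G H π)
    (hN : NonIso G H) : (comps (flipG G f M hM) univ).card < BB r k := by
  obtain ⟨t, ht, h1⟩ := exists_D G f M k hk
  have hg : ∀ x y, dd G x y ≤ Dq k t ∨ 2 * Dq k t + 2 ≤ dd G x y := fun x y => by
    rcases h1 x y with h | h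
    · exact Or.inl h
    · exact Or.inr (by omega)
  obtain ⟨u, hu, h2⟩ := exists_S G f M k hk (Dq k t) (S00 r k (Dq k t)) (Dq_ge k t) hg
  have h3 := core G f M hM k hk hH hN (Dq k t) (S00 r k (Dq k t) + 2 * u) (Dq_ge k t) h1 h2
    (by omega)
  refine lt_of_lt_of_le (Nat.lt_succ_of_le h3) ?_
  unfold BB
  refine le_trans ?_ (single_le_sum (fun _ _ => Nat.zero_le _) (mem_range.mpr ht))
  exact single_le_sum (f := fun u => FB r k (Dq k t) (S00 r k (Dq k t) + 2 * u) + 1)
    (fun _ _ => Nat.zero_le _) (mem_range.mpr hu)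

end core

end Pool.Agent.TH403.FLP
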