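import Pool.Agent.TH403.FLP.Core

set_option autoImplicit false
set_option linter.unusedSectionVars false

/-!
# Flipped graphs: deletion of a few vertices, and the final forms
-/

namespace Pool.Agent.TH403.FLP

open Finset Classical
open Pool.Agent.H234RC (Hypo NonIso Reconstructible)
open Pool.Agent.TH87.RVE (comps comp comps_sub mem_comps card_comps card_components_le card_comp_le
  rec_of comp_self mem_comp)

variable {V : Type} [Fintype V]

/-- The bound for an arbitrary finite set of indices. -/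
theorem index_bound {J : Type} [Fintype J] (R : ℕ) (hJ : Fintype.card J ≤ R) (G : SimpleGraph V)
    (f : V → J) (M : J → J → Prop) (hM : ∀ i j, M i j → M j i) (k : ℕ)
    (hk : ∀ x, (univ.filter (fun y => y ≠ x ∧ ¬ (G.Adj x y ↔ M (f x) (f y)))).card ≤ k)
    {H : SimpleGraph V} {π : V → Equiv.Perm V} (hH : Hypo G H π) (hN : NonIso G H) :
    (comps (flipG G f M hM) univ).card < BB R k := by
  let e : J ↪ Fin R := (Fintype.equivFin J).toEmbedding.trans (Fin.castLEEmb hJ)
  let M' : Fin R → Fin R → Prop := fun a b => ∃ i j, e i = a ∧ e j = b ∧ M i j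
  have hM' : ∀ a b, M' a b → M' b a := by
    rintro a b ⟨i, j, hi, hj, h⟩
    exact ⟨j, i, hj, hi, hM i j h⟩
  have hMe : ∀ i j, M' (e i) (e j) ↔ M i j := by
    intro i j
    constructor
    · rintro ⟨i', j', hi, hj, h⟩
      rwa [e.injective hi, e.injective hj] at h
    · intro h
      exact ⟨i, j, rfl, rfl, h⟩
  have hk' : ∀ x, (nb G (fun x => e (f x)) M' x).card ≤ k := by
    intro x
    refine le_trans (card_le_card ?_) (hk x)
    intro y hy
    rw [mem_nb, hMe] at hy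
    exact mem_filter.mpr ⟨mem_univ _, hy⟩
  have h := parts_bound G (fun x => e (f x)) M' hM' k hk' hH hN
  rwa [comps_congr (flipG G (fun x => e (f x)) M' hM') (flipG G f M hM) univ] at h
  intro x _ y _
  show (x ≠ y ∧ ¬ (G.Adj x y ↔ M' (e (f x)) (e (f y)))) ↔ (x ≠ y ∧ ¬ (G.Adj x y ↔ M (f x) (f y)))
  rw [hMe]

/-- the matrix after the deletion of the vertices in `A` -/
def MJ {V : Type} (G : SimpleGraph V) {r : ℕ} (A : Finset V) (M : Fin r → Fin r → Prop) :
    (Fin r × Finset {x // x ∈ A}) ⊕ {x // x ∈ A} →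
      (Fin r × Finset {x // x ∈ A}) ⊕ {x // x ∈ A} → Prop
  | Sum.inl p, Sum.inl q => M p.1 q.1
  | Sum.inl p, Sum.inr y => y ∈ p.2
  | Sum.inr y, Sum.inl p => y ∈ p.2
  | Sum.inr x, Sum.inr y => G.Adj x y

theorem MJ_symm {V : Type} (G : SimpleGraph V) {r : ℕ} (A : Finset V) (M : Fin r → Fin r → Prop)
    (hM : ∀ i j, M i j → M j i) : ∀ i j, MJ G A M i j → MJ G A M j i := by
  rintro (p | x) (q | y) h
  · exact hM _ _ h
  · exact h
  · exact h
  · exact G.adj_symm h

theorem del_bound (a r k : ℕ) (G : SimpleGraph V) (A : Finset V) (hA : A.card ≤ a) (f : V → Fin r)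
    (M : Fin r → Fin r → Prop) (hM : ∀ i j, M i j → M j i)
    (hk : ∀ x, x ∉ A →
      (univ.filter (fun y => y ∉ A ∧ y ≠ x ∧ ¬ (G.Adj x y ↔ M (f x) (f y)))).card ≤ k)
    {H : SimpleGraph V} {π : V → Equiv.Perm V} (hH : Hypo G H π) (hN : NonIso G H) :
    (comps (flipG G f M hM) Aᶜ).card < BB (r * 2 ^ a + a) k := by
  let J := (Fin r × Finset {x // x ∈ A}) ⊕ {x // x ∈ A}
  let NA : V → Finset {x // x ∈ A} := fun x => univ.filter (fun y : {x // x ∈ A} => G.Adj x y)
  let f' : V → J := fun x => if h : x ∈ A then Sum.inr ⟨x, h⟩ else Sum.inl (f x, NA x)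
  have hJ : Fintype.card J ≤ r * 2 ^ a + a := by
    show Fintype.card ((Fin r × Finset {x // x ∈ A}) ⊕ {x // x ∈ A}) ≤ _
    rw [Fintype.card_sum, Fintype.card_prod, Fintype.card_fin, Fintype.card_finset,
      Fintype.card_coe]
    exact Nat.add_le_add (Nat.mul_le_mul_left _ (Nat.pow_le_pow_right (by norm_num) hA)) hA
  have hf1 : ∀ x (h : x ∈ A), f' x = Sum.inr ⟨x, h⟩ := fun x h => by simp [f', h]
  have hf2 : ∀ x, x ∉ A → f' x = Sum.inl (f x, NA x) := fun x h => by simp [f', h]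
  have hA1 : ∀ x y, x ∈ A → (G.Adj x y ↔ MJ G A M (f' x) (f' y)) := by
    intro x y hx
    by_cases hy : y ∈ A
    · rw [hf1 x hx, hf1 y hy]
      exact Iff.rfl
    · rw [hf1 x hx, hf2 y hy]
      show _ ↔ (⟨x, hx⟩ : {x // x ∈ A}) ∈ univ.filter (fun z : {x // x ∈ A} => G.Adj y z)
      rw [mem_filter, G.adj_comm]
      exact ⟨fun h => ⟨mem_univ _, h⟩, fun h => h.2⟩
  have hMJ := MJ_symm G A M hM
  have hA2 : ∀ x y, y ∈ A → (G.Adj x y ↔ MJ G A M (f' x) (f' y)) := by
    intro x y hy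
    rw [G.adj_comm, hA1 y x hy]
    exact ⟨hMJ _ _, hMJ _ _⟩
  have hA3 : ∀ x y, x ∉ A → y ∉ A → (MJ G A M (f' x) (f' y) ↔ M (f x) (f y)) := by
    intro x y hx hy
    rw [hf2 x hx, hf2 y hy]
    exact Iff.rfl
  have hk' : ∀ x, (univ.filter (fun y => y ≠ x ∧ ¬ (G.Adj x y ↔ MJ G A M (f' x) (f' y)))).card ≤
      k := by
    intro x
    by_cases hx : x ∈ A
    · rw [card_eq_zero.mpr]
      · exact Nat.zero_le _
      · rw [filter_eq_empty_iff]
        rintro y _ ⟨_, h⟩
        exact h (hA1 x y hx)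
    · refine le_trans (card_le_card ?_) (hk x hx)
      intro y hy
      rw [mem_filter] at hy
      have hyA : y ∉ A := fun h => hy.2.2 (hA2 x y h)
      rw [hA3 x y hx hyA] at hy
      exact mem_filter.mpr ⟨mem_univ _, hyA, hy.2⟩
  have h := index_bound (r * 2 ^ a + a) hJ G f' (MJ G A M) hMJ k hk' hH hN
  set K := flipG G f' (MJ G A M) hMJ with hK
  have h2 := comps_le_add_deg K Aᶜ univ (subset_univ _) 0 (by
    intro y hy
    rw [mem_sdiff, mem_compl, not_not] at hy
    rw [Nat.le_zero, card_eq_zero, filter_eq_empty_iff]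
    rintro x _ ⟨_, hadj⟩
    exact hadj (hA1 y x hy.2))
  rw [mul_zero, add_zero] at h2
  rw [comps_congr (flipG G f M hM) K Aᶜ]
  · exact lt_of_le_of_lt h2 h
  · intro x hx y hy
    rw [mem_compl] at hx hy
    show (x ≠ y ∧ ¬ (G.Adj x y ↔ M (f x) (f y))) ↔
      (x ≠ y ∧ ¬ (G.Adj x y ↔ MJ G A M (f' x) (f' y)))
    rw [hA3 x y hx hy]

/-- The form with many components. `K` is the flipped graph. -/
theorem many_form (a r k : ℕ) (G K : SimpleGraph V) (A : Finset V) (hA : A.card ≤ a)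
    (f : V → Fin r) (M : Fin r → Fin r → Prop) (hM : ∀ i j, M i j → M j i)
    (hK : ∀ x y, K.Adj x y ↔ x ≠ y ∧ ¬ (G.Adj x y ↔ M (f x) (f y)))
    (hk : ∀ x, x ∉ A → (univ.filter (fun y => y ∉ A ∧ K.Adj x y)).card ≤ k)
    (hm : BB (r * 2 ^ a + a) k ≤ Nat.card (K.induce {v | v ∉ A}).ConnectedComponent) :
    Reconstructible G ∧ Reconstructible Gᶜ := by
  refine rec_of G _ (fun H π hH hN => not_le.mpr ?_) hm
  have h1 := del_bound a r k G A hA f M hM (fun x hx => by
    refine le_trans (card_le_card ?_) (hk x hx)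
    intro y hy
    rw [mem_filter] at hy ⊢
    exact ⟨mem_univ _, hy.2.1, (hK x y).mpr ⟨hy.2.2.1.symm, hy.2.2.2⟩⟩) hH hN
  have h2 := card_components_le K Aᶜ {v | v ∉ A} (fun x => by
    rw [mem_compl, Set.mem_ofPred_eq])
  rw [comps_congr (flipG G f M hM) K Aᶜ (fun x _ y _ => (hK x y).symm)] at h1
  omega

/-- The form with bounded components. `K` is the flipped graph. -/
theorem order_form (a r k : ℕ) (G K : SimpleGraph V) (A : Finset V) (hA : A.card ≤ a)
    (f : V → Fin r) (M : Fin r → Fin r → Prop) (hM : ∀ i j, M i j → M j i)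
    (hK : ∀ x y, K.Adj x y ↔ x ≠ y ∧ ¬ (G.Adj x y ↔ M (f x) (f y)))
    (hk : ∀ c : (K.induce {v | v ∉ A}).ConnectedComponent, c.supp.ncard ≤ k)
    (hm : a + k * BB (r * 2 ^ a + a) k < Fintype.card V) :
    Reconstructible G ∧ Reconstructible Gᶜ := by
  refine rec_of G _ (fun H π hH hN => not_lt.mpr ?_) hm
  have h1 := del_bound a r k G A hA f M hM (fun x hx => by
    refine le_trans (card_le_card ?_) (card_comp_le K A k hk x hx)
    intro y hy
    rw [mem_filter] at hy
    rw [mem_comp]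
    refine ⟨mem_compl.mpr hy.2.1, Relation.ReflTransGen.single
      ⟨mem_compl.mpr hx, mem_compl.mpr hy.2.1, ?_⟩⟩
    exact (hK x y).mpr ⟨hy.2.2.1.symm, hy.2.2.2⟩) hH hN
  rw [comps_congr (flipG G f M hM) K Aᶜ (fun x _ y _ => (hK x y).symm)] at h1
  have h2 : (Aᶜ : Finset V).card ≤ (comps K Aᶜ).card * k := by
    rw [← card_comps K Aᶜ, ← smul_eq_mul, ← sum_const]
    apply sum_le_sum
    intro D hD
    obtain ⟨x, hx, rfl⟩ := (mem_comps K _ D).mp hD
    exact card_comp_le K A k hk x (mem_compl.mp hx)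
  have h3 : Fintype.card V = A.card + (Aᶜ : Finset V).card := by
    rw [card_compl]
    have := card_le_univ A
    omega
  have h4 : (comps K Aᶜ).card * k ≤ BB (r * 2 ^ a + a) k * k := Nat.mul_le_mul_right _ h1.le
  rw [h3]
  calc A.card + (Aᶜ : Finset V).card ≤ a + (comps K Aᶜ).card * k := Nat.add_le_add hA h2
    _ ≤ a + BB (r * 2 ^ a + a) k * k := Nat.add_le_add_left h4 _
    _ = a + k * BB (r * 2 ^ a + a) k := by rw [Nat.mul_comm k]

end Pool.Agent.TH403.FLP
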