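import Pool.Agent.TH403.FLP.Num

set_option autoImplicit false
set_option linter.unusedSectionVars false

/-!
# Flipped graphs: the final form
-/

namespace Pool.Agent.TH403.FLP

open Finset Classical
open Pool.Agent.H234RC (Reconstructible)

theorem final (a r : ℕ) : ∃ C : ℝ,
    (∀ (k : ℕ) (V : Type) [Fintype V] (G K : SimpleGraph V) (A : Finset V) (f : V → Fin r)
      (P : Set (Sym2 (Fin r))), (∀ x y, K.Adj x y ↔ x ≠ y ∧ (G.Adj x y ↔ s(f x, f y) ∉ P)) →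
      A.card ≤ a →
      (∀ v : V, v ∉ A → (univ.filter (fun y => y ∉ A ∧ K.Adj v y)).card ≤ k) →
      C * (((k : ℝ) + 1) * Real.log ((k : ℝ) + 2)) ^ 2 ≤
        (Nat.card (K.induce {v | v ∉ A}).ConnectedComponent : ℝ) →
      Reconstructible G ∧ Reconstructible Gᶜ) ∧
    (∀ (k : ℕ) (V : Type) [Fintype V] (G K : SimpleGraph V) (A : Finset V) (f : V → Fin r)
      (P : Set (Sym2 (Fin r))), (∀ x y, K.Adj x y ↔ x ≠ y ∧ (G.Adj x y ↔ s(f x, f y) ∉ P)) →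
      A.card ≤ a →
      (∀ c : (K.induce {v | v ∉ A}).ConnectedComponent, c.supp.ncard ≤ k) →
      C * (((k : ℝ) + 1) ^ 3 * Real.log ((k : ℝ) + 2) ^ 2) ≤ (Fintype.card V : ℝ) →
      Reconstructible G ∧ Reconstructible Gᶜ) := by
  obtain ⟨C0, hC0, hB⟩ := BB_bound (r * 2 ^ a + a)
  have hconv : ∀ (V : Type) (G K : SimpleGraph V) (f : V → Fin r) (P : Set (Sym2 (Fin r))),
      (∀ x y, K.Adj x y ↔ x ≠ y ∧ (G.Adj x y ↔ s(f x, f y) ∉ P)) →
      ∀ x y, K.Adj x y ↔ x ≠ y ∧ ¬ (G.Adj x y ↔ (fun i j => s(i, j) ∈ P) (f x) (f y)) := by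
    intro V G K f P h x y
    rw [h x y]
    have : (G.Adj x y ↔ s(f x, f y) ∉ P) ↔ ¬ (G.Adj x y ↔ s(f x, f y) ∈ P) := by tauto
    rw [this]
  have hsym : ∀ (P : Set (Sym2 (Fin r))) (i j : Fin r),
      (fun i j => s(i, j) ∈ P) i j → (fun i j => s(i, j) ∈ P) j i := by
    intro P i j h
    show s(j, i) ∈ P
    rw [Sym2.eq_swap]
    exact h
  refine ⟨C0 + 4 * a + 4, ?_, ?_⟩
  · intro k V _ G K A f P hK hA hk hm
    apply many_form a r k G K A hA f (fun i j => s(i, j) ∈ P) (hsym P) (hconv V G K f P hK) hk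
    have h1 := hB k
    have h2 : (0 : ℝ) ≤ EE k ^ 2 := sq_nonneg _
    have h3 : C0 * EE k ^ 2 ≤ (C0 + 4 * a + 4) * EE k ^ 2 := by
      have : (0 : ℝ) ≤ a := Nat.cast_nonneg a
      nlinarith
    have h4 : (BB (r * 2 ^ a + a) k : ℝ) ≤
        (Nat.card (K.induce {v | v ∉ A}).ConnectedComponent : ℝ) := (h1.trans h3).trans hm
    exact_mod_cast h4
  · intro k V _ G K A f P hK hA hk hm
    apply order_form a r k G K A hA f (fun i j => s(i, j) ∈ P) (hsym P) (hconv V G K f P hK) hk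
    have h1 := hB k
    have h2 : (1 / 4 : ℝ) ≤ EE k ^ 2 := by
      have := EE_half k
      nlinarith
    have hk0 : (0 : ℝ) ≤ k := Nat.cast_nonneg k
    have ha0 : (0 : ℝ) ≤ a := Nat.cast_nonneg a
    have e : ((k : ℝ) + 1) ^ 3 * Real.log ((k : ℝ) + 2) ^ 2 = ((k : ℝ) + 1) * EE k ^ 2 := by
      unfold EE
      ring
    rw [e] at hm
    have h3 : (a : ℝ) + k * (BB (r * 2 ^ a + a) k : ℝ) <
        (C0 + 4 * a + 4) * (((k : ℝ) + 1) * EE k ^ 2) := by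
      have g1 : (k : ℝ) * (BB (r * 2 ^ a + a) k : ℝ) ≤ k * (C0 * EE k ^ 2) :=
        mul_le_mul_of_nonneg_left h1 hk0
      have g2 : (1 / 4 : ℝ) ≤ ((k : ℝ) + 1) * EE k ^ 2 := by nlinarith
      have g3 : (a : ℝ) ≤ 4 * a * (((k : ℝ) + 1) * EE k ^ 2) := by nlinarith
      have g4 : (0 : ℝ) ≤ C0 * EE k ^ 2 := by positivity
      nlinarith
    have h4 : (a : ℝ) + k * (BB (r * 2 ^ a + a) k : ℝ) < (Fintype.card V : ℝ) :=
      lt_of_lt_of_le h3 hm
    exact_mod_cast h4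

end Pool.Agent.TH403.FLP
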