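import Pool.Agent.TH403.FLP.Rec

set_option autoImplicit false
set_option linter.unusedSectionVars false

/-!
# Flipped graphs: the bound for the number of components
-/

namespace Pool.Agent.TH403.FLP

open Finset Classical
open Pool.Agent.H234RC (Hypo NonIso)
open Pool.Agent.TH87.RVE (comps comp rch RR)

variable {V : Type} [Fintype V]

/-- The graph obtained from `K` by complementing the pairs in a symmetric relation `m`. -/
def flipR {V : Type} (K : SimpleGraph V) (m : V → V → Prop) (hm : ∀ x y, m x y → m y x) :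
    SimpleGraph V where
  Adj x y := x ≠ y ∧ ¬ (K.Adj x y ↔ m x y)
  symm := ⟨fun x y h => ⟨h.1.symm, fun h' => h.2 (by
    rw [K.adj_comm, h']
    exact ⟨hm _ _, hm _ _⟩)⟩⟩
  loopless := ⟨fun _ h => h.1 rfl⟩

/-- vertices in large classes -/
noncomputable def lg (K : SimpleGraph V) (D S : ℕ) : Finset V :=
  univ.filter (fun x => x ∉ sm K D S)

theorem mem_lg (K : SimpleGraph V) (D S : ℕ) (x : V) : x ∈ lg K D S ↔ x ∉ sm K D S := by
  unfold lg
  rw [mem_filter]
  exact ⟨fun h => h.2, fun h => ⟨mem_univ _, h⟩⟩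

theorem rec_bound {G H : SimpleGraph V} {π : V → Equiv.Perm V} (hH : Hypo G H π)
    (hN : NonIso G H) (D S k0 : ℕ)
    (h1 : ∀ x y, dd G x y ≤ D ∨ 2 * D + 5 ≤ dd G x y)
    (h2 : ∀ x, (cl G D x).card ≤ S ∨ S + 3 ≤ (cl G D x).card)
    (hk0 : 2 * k0 + 2 ≤ S) (m : V → V → Prop) (hms : ∀ x y, m x y → m y x)
    (hmc : ∀ x x' y, dd G x x' ≤ D → (m x y ↔ m x' y))
    (hm : ∀ x y, x ∈ lg G D S → y ∈ lg G D S →
      ((cl G D y).filter (fun z => z ≠ x ∧ ¬ (G.Adj x z ↔ m x y))).card ≤ k0)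
    (hne : (lg G D S).Nonempty) :
    ∃ s : ℕ, (comps (flipR G m hms) (lg G D S)).card ≤ s * (s + 2) ∧
      (3 / 2 : ℝ) ^ s ≤ 2 * (((sm G D S).card.factorial *
        (((lg G D S).image (cl G D)).card).factorial : ℕ) : ℝ) := by
  set A := sm G D S with hA
  set L := lg G D S with hL
  have hAL : ∀ v, v ∈ L ↔ v ∉ A := fun v => mem_lg G D S v
  obtain ⟨i0, hi0⟩ := hne
  have hbig : ∀ x ∈ L, S + 3 ≤ (cl G D x).card := by
    intro x hx
    rw [hAL, hA, mem_sm] at hx
    rcases h2 x with h | h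
    · exact absurd h hx
    · exact h
  have hn : 3 ≤ Fintype.card V := by
    have h3 := hbig i0 hi0
    have h4 := card_le_univ (cl G D i0)
    omega
  have hneA : ∃ x, x ∉ A := ⟨i0, (hAL i0).mp hi0⟩
  have hmapsA : ∀ v u, π v u ∈ A ↔ u ∈ A := sm_maps hH D S h1 h2 hn hneA
  have hmapsL : ∀ v u, π v u ∈ L ↔ u ∈ L := fun v u => by rw [hAL, hAL, hmapsA]
  have hgG : ∀ x y, dd G x y ≤ D ∨ 2 * D + 2 ≤ dd G x y := fun x y => by
    rcases h1 x y with h | h
    · exact Or.inl h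
    · exact Or.inr (by omega)
  have hgH : ∀ x y, dd H x y ≤ D + 1 ∨ 2 * (D + 1) + 2 ≤ dd H x y := gapH hH D h1 hn
  have hclG := cl_eq G D hgG
  have hclH := cl_eq H (D + 1) hgH
  have hAH : A = sm H (D + 1) (S + 1) := sm_eq hH D S h1 h2 hn hneA
  have hbigH : ∀ x ∈ L, S + 2 ≤ (cl H (D + 1) x).card := by
    intro x hx
    rw [hAL, hAH, mem_sm] at hx
    omega
  have hclL : ∀ x ∈ L, ∀ y ∈ cl G D x, y ∈ L := by
    intro x hx y hy
    rw [hAL, hA, mem_sm] at hx ⊢
    rw [mem_cl] at hy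
    rwa [← (hclG x y).mpr hy]
  have hclL' : ∀ x ∈ L, ∀ y ∈ cl H (D + 1) x, y ∈ L := by
    intro x hx y hy
    rw [hAL, hAH, mem_sm] at hx ⊢
    rw [mem_cl] at hy
    rwa [← (hclH x y).mpr hy]
  -- colours
  let I := {C : Finset V // C ∈ L.image (cl G D)}
  let J := {C : Finset V // C ∈ L.image (cl H (D + 1))}
  let cI : ∀ x, x ∈ L → I := fun x hx => ⟨cl G D x, mem_image_of_mem _ hx⟩
  let cJ : ∀ x, x ∈ L → J := fun x hx => ⟨cl H (D + 1) x, mem_image_of_mem _ hx⟩
  have hcI : ∀ x y (hx : x ∈ L) (hy : y ∈ L), cI x hx = cI y hy ↔ dd G x y ≤ D := by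
    intro x y hx hy
    rw [← hclG x y]
    exact ⟨fun h => congrArg Subtype.val h, fun h => Subtype.ext h⟩
  have hcJ : ∀ x y (hx : x ∈ L) (hy : y ∈ L), cJ x hx = cJ y hy ↔ dd H x y ≤ D + 1 := by
    intro x y hx hy
    rw [← hclH x y]
    exact ⟨fun h => congrArg Subtype.val h, fun h => Subtype.ext h⟩
  have hIrep : ∀ i : I, ∃ x, ∃ hx : x ∈ L, cI x hx = i := by
    rintro ⟨C, hC⟩
    obtain ⟨x, hx, rfl⟩ := mem_image.mp hC
    exact ⟨x, hx, rfl⟩
  have hJrep : ∀ i : J, ∃ x, ∃ hx : x ∈ L, cJ x hx = i := by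
    rintro ⟨C, hC⟩
    obtain ⟨x, hx, rfl⟩ := mem_image.mp hC
    exact ⟨x, hx, rfl⟩
  have hT : ∀ v, ∃ e : I ≃ J, ∀ x (hx : x ∈ L), x ≠ v →
      e (cI x hx) = cJ (π v x) ((hmapsL v x).mpr hx) := by
    intro v
    let X := {x // x ∈ L ∧ x ≠ v}
    have g1 : Function.Surjective (fun x : X => cI x.1 x.2.1) := by
      intro i
      obtain ⟨x, hx, rfl⟩ := hIrep i
      have h3 := hbig x hx
      have h4 := card_erase_bounds (cl G D x) v
      obtain ⟨y, hy⟩ : ((cl G D x).erase v).Nonempty := card_pos.mp (by omega)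
      rw [mem_erase] at hy
      refine ⟨⟨y, hclL x hx y hy.2, hy.1⟩, ?_⟩
      exact ((hcI x y hx (hclL x hx y hy.2)).mpr ((mem_cl G D x y).mp hy.2)).symm
    have g2 : Function.Surjective (fun x : X => cJ (π v x.1) ((hmapsL v x.1).mpr x.2.1)) := by
      intro i
      obtain ⟨x, hx, rfl⟩ := hJrep i
      have h3 := hbigH x hx
      have h4 := card_erase_bounds (cl H (D + 1) x) v
      obtain ⟨y, hy⟩ : ((cl H (D + 1) x).erase v).Nonempty := card_pos.mp (by omega)
      rw [mem_erase] at hy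
      have hyL := hclL' x hx y hy.2
      have hyL' : (π v).symm y ∈ L := by
        rw [← hmapsL v, Equiv.apply_symm_apply]; exact hyL
      refine ⟨⟨(π v).symm y, hyL', (pi_symm_ne hH v y).mpr hy.1⟩, ?_⟩
      apply (hcJ (π v ((π v).symm y)) x ((hmapsL v _).mpr hyL') hx).mpr
      rw [Equiv.apply_symm_apply, dd_comm]
      exact (mem_cl H (D + 1) x y).mp hy.2
    have g3 : ∀ x y : X, cI x.1 x.2.1 = cI y.1 y.2.1 ↔
        cJ (π v x.1) ((hmapsL v x.1).mpr x.2.1) = cJ (π v y.1) ((hmapsL v y.1).mpr y.2.1) := by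
      rintro ⟨x, hx, hxv⟩ ⟨y, hy, hyv⟩
      exact (hcI x y hx hy).trans ((rel_iff hH D h1 v x y hxv hyv).symm.trans 
        (hcJ _ _ ((hmapsL v x).mpr hx) ((hmapsL v y).mpr hy)).symm)
    obtain ⟨e, he⟩ := exists_equiv (X := X) (fun x => cI x.1 x.2.1)
      (fun x => cJ (π v x.1) ((hmapsL v x.1).mpr x.2.1)) g1 g2 g3
    exact ⟨e, fun x hx hxv => he ⟨x, hx, hxv⟩⟩
  choose T hTe using hT
  let τ : V → Equiv.Perm I := fun v => (T v).trans (T i0).symm
  have hτ : ∀ v i, τ v i = (T i0).symm (T v i) := fun v i => rfl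
  let cG : V → I := fun x => if hx : x ∈ L then cI x hx else cI i0 hi0
  let cH : V → I := fun x => if hx : x ∈ L then (T i0).symm (cJ x hx) else cI i0 hi0
  have hcG : ∀ x (hx : x ∈ L), cG x = cI x hx := fun x hx => by simp [cG, hx]
  have hcH : ∀ x (hx : x ∈ L), cH x = (T i0).symm (cJ x hx) := fun x hx => by simp [cH, hx]
  have hc : ∀ v ∈ L, ∀ u ∈ L, u ≠ v → cH (π v u) = τ v (cG u) := by
    intro v _ u hu huv
    rw [hcG u hu, hτ, hTe v u hu huv]
    exact hcH _ ((hmapsL v u).mpr hu)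
  -- the matrix
  choose rep hrepL hrep using hIrep
  let M : I → I → Prop := fun i j => m (rep i) (rep j)
  have hMs : ∀ i j, M i j → M j i := fun i j => hms _ _
  have hmc2 : ∀ x y y', dd G y y' ≤ D → (m x y ↔ m x y') := by
    intro x y y' h
    rw [show m x y ↔ m y x from ⟨hms _ _, hms _ _⟩, hmc y y' x h]
    exact ⟨hms _ _, hms _ _⟩
  have hM : ∀ x y (hx : x ∈ L) (hy : y ∈ L), M (cI x hx) (cI y hy) ↔ m x y := by
    intro x y hx hy
    show m (rep (cI x hx)) (rep (cI y hy)) ↔ m x y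
    have e1 : dd G (rep (cI x hx)) x ≤ D := (hcI _ _ (hrepL _) hx).mp (hrep (cI x hx))
    have e2 : dd G (rep (cI y hy)) y ≤ D := (hcI _ _ (hrepL _) hy).mp (hrep (cI y hy))
    rw [hmc _ _ _ e1, hmc2 _ _ _ e2]
  -- exceptions
  have key : ∀ v ∈ L, ∀ x y x' y' (hx : x ∈ L) (hy : y ∈ L) (hx' : x' ∈ L) (hy' : y' ∈ L),
      T v (cI x hx) = T i0 (cI x' hx') → T v (cI y hy) = T i0 (cI y' hy') →
      (m x' y' ↔ m x y) := by
    intro v _ x y x' y' hx hy hx' hy' ex ey
    by_contra hcon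
    -- the class of `x` in `H`
    have hcls : ∀ x x' (hx : x ∈ L) (hx' : x' ∈ L), T v (cI x hx) = T i0 (cI x' hx') →
        ∃ z0 ∈ L, ∀ z ∈ cl H (D + 1) z0, z ≠ v → z ≠ i0 →
          (π v).symm z ∈ cl G D x ∧ (π i0).symm z ∈ cl G D x' := by
      intro x x' hx hx' e
      obtain ⟨z0, hz0, hz0'⟩ := hJrep (T v (cI x hx))
      refine ⟨z0, hz0, fun z hz hzv hzi => ?_⟩
      have hzL := hclL' z0 hz0 z hz
      have hzJ : cJ z hzL = T v (cI x hx) := by
        rw [← hz0']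
        apply (hcJ z z0 hzL hz0).mpr
        rw [dd_comm]
        exact (mem_cl _ _ _ _).mp hz
      have gen : ∀ u (w : V) (hw : w ∈ L), z ≠ u → cJ z hzL = T u (cI w hw) →
          (π u).symm z ∈ cl G D w := by
        intro u w hw hzu hJ
        have hsL : (π u).symm z ∈ L := by
          rw [← hmapsL u, Equiv.apply_symm_apply]; exact hzL
        have h3 := hTe u _ hsL ((pi_symm_ne hH u z).mpr hzu)
        have h4 : T u (cI _ hsL) = T u (cI w hw) := by
          rw [h3, ← hJ]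
          apply (hcJ _ _ ((hmapsL u _).mpr hsL) hzL).mpr
          rw [Equiv.apply_symm_apply, dd_self]
          exact Nat.zero_le _
        have h5 := (T u).injective h4
        rw [mem_cl, dd_comm]
        exact (hcI _ _ hsL hw).mp h5
      exact ⟨gen v x hx hzv hzJ, gen i0 x' hx' hzi (hzJ.trans e)⟩
    obtain ⟨z0, hz0, hz⟩ := hcls x x' hx hx' ex
    obtain ⟨w0, hw0, hw⟩ := hcls y y' hy hy' ey
    -- a vertex of the first class
    have h3 := hbigH z0 hz0
    obtain ⟨z, hzc⟩ : (((cl H (D + 1) z0).erase v).erase i0).Nonempty := by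
      have a1 := card_erase_bounds (cl H (D + 1) z0) v
      have a2 := card_erase_bounds ((cl H (D + 1) z0).erase v) i0
      exact card_pos.mp (by omega)
    rw [mem_erase, mem_erase] at hzc
    obtain ⟨hzi, hzv, hzc⟩ := hzc
    obtain ⟨hx1, hx2⟩ := hz z hzc hzv hzi
    set x1 := (π v).symm z with hx1def
    set x2 := (π i0).symm z with hx2def
    have hx1v : x1 ≠ v := (pi_symm_ne hH v z).mpr hzv
    have hx2v : x2 ≠ i0 := (pi_symm_ne hH i0 z).mpr hzi
    have hx1L := hclL x hx x1 hx1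
    have hx2L := hclL x' hx' x2 hx2
    have b1 := hm x1 y hx1L hy
    have b2 := hm x2 y' hx2L hy'
    set E1 := (cl G D y).filter (fun u => u ≠ x1 ∧ ¬ (G.Adj x1 u ↔ m x1 y)) with hE1
    set E2 := (cl G D y').filter (fun u => u ≠ x2 ∧ ¬ (G.Adj x2 u ↔ m x2 y')) with hE2
    have hsub : cl H (D + 1) w0 ⊆ ({z, v, i0} : Finset V) ∪
        (E1.map (π v).toEmbedding ∪ E2.map (π i0).toEmbedding) := by
      intro u hu
      rw [mem_union, mem_insert, mem_insert, mem_singleton]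
      by_cases g1 : u = z
      · left; left; exact g1
      by_cases g2 : u = v
      · left; right; left; exact g2
      by_cases g3 : u = i0
      · left; right; right; exact g3
      right
      obtain ⟨hy1, hy2⟩ := hw u hu g2 g3
      have c1 := hH.adj v x1 ((π v).symm u) hx1v ((pi_symm_ne hH v u).mpr g2)
      have c2 := hH.adj i0 x2 ((π i0).symm u) hx2v ((pi_symm_ne hH i0 u).mpr g3)
      rw [hx1def, Equiv.apply_symm_apply, Equiv.apply_symm_apply] at c1
      rw [hx2def, Equiv.apply_symm_apply, Equiv.apply_symm_apply] at c2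
      rw [← hx1def] at c1
      rw [← hx2def] at c2
      have n1 : (π v).symm u ≠ x1 := fun e => g1 ((π v).symm.injective e)
      have n2 : (π i0).symm u ≠ x2 := fun e => g1 ((π i0).symm.injective e)
      rw [mem_union, mem_map_equiv, mem_map_equiv, hE1, hE2, mem_filter, mem_filter]
      by_contra hcon2
      rw [not_or] at hcon2
      have d1 : G.Adj x1 ((π v).symm u) ↔ m x1 y := by
        by_contra h
        exact hcon2.1 ⟨hy1, n1, h⟩
      have d2 : G.Adj x2 ((π i0).symm u) ↔ m x2 y' := by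
        by_contra h
        exact hcon2.2 ⟨hy2, n2, h⟩
      apply hcon
      rw [hmc x' x2 y' ((mem_cl _ _ _ _).mp hx2), hmc x x1 y ((mem_cl _ _ _ _).mp hx1)]
      exact d2.symm.trans (c2.symm.trans (c1.trans d1))
    have h4 := card_le_card hsub
    have h5 := card_union_le ({z, v, i0} : Finset V)
      (E1.map (π v).toEmbedding ∪ E2.map (π i0).toEmbedding)
    have h6 := card_union_le (E1.map (π v).toEmbedding) (E2.map (π i0).toEmbedding)
    have h7 : ({z, v, i0} : Finset V).card ≤ 3 := card_le_three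
    rw [card_map, card_map] at h6
    have h8 := hbigH w0 hw0
    omega
  have hMτ : ∀ v ∈ L, ∀ i j, M (τ v i) (τ v j) ↔ M i j := by
    intro v hv i j
    have e1 : T v (cI (rep i) (hrepL i)) =
        T i0 (cI (rep (τ v i)) (hrepL (τ v i))) := by
      rw [hrep, hrep, hτ, Equiv.apply_symm_apply]
    have e2 : T v (cI (rep j) (hrepL j)) =
        T i0 (cI (rep (τ v j)) (hrepL (τ v j))) := by
      rw [hrep, hrep, hτ, Equiv.apply_symm_apply]
    exact key v hv _ _ _ _ (hrepL i) (hrepL j) (hrepL (τ v i)) (hrepL (τ v j)) e1 e2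
  have hfin := flip_bound hH hN A L hAL cG cH M hMs τ hmapsA hc hMτ
  obtain ⟨s, hs1, hs2⟩ := hfin
  refine ⟨s, ?_, ?_⟩
  · rw [comps_congr (flipR G m hms) (flipG G cG M hMs) L]
    · exact hs1
    · intro x hx y hy
      show (x ≠ y ∧ ¬ (G.Adj x y ↔ m x y)) ↔ (x ≠ y ∧ ¬ (G.Adj x y ↔ M (cG x) (cG y)))
      rw [hcG x hx, hcG y hy, hM x y hx hy]
  · rw [Fintype.card_coe] at hs2
    exact hs2

end Pool.Agent.TH403.FLP
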