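import Pool.Agent.TH403.FLP.Ded

set_option autoImplicit false
set_option linter.unusedSectionVars false

/-!
# Flipped graphs: the dependence of the bound on the degree
-/

namespace Pool.Agent.TH403.FLP

open Finset

/-- the growth -/
noncomputable def EE (k : ℕ) : ℝ := ((k : ℝ) + 1) * Real.log ((k : ℝ) + 2)

theorem half_le_log (k : ℕ) : (1 / 2 : ℝ) ≤ Real.log ((k : ℝ) + 2) := by
  have h1 := Real.log_two_gt_d9
  have h2 : Real.log 2 ≤ Real.log ((k : ℝ) + 2) :=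
    Real.log_le_log (by norm_num) (by have : (0 : ℝ) ≤ k := Nat.cast_nonneg k; linarith)
  linarith

theorem EE_ge (k : ℕ) : (k : ℝ) + 1 ≤ 2 * EE k := by
  have h1 := half_le_log k
  have h2 : (0 : ℝ) ≤ k := Nat.cast_nonneg k
  unfold EE
  nlinarith

theorem EE_half (k : ℕ) : (1 / 2 : ℝ) ≤ EE k := by
  have h1 := EE_ge k
  have h2 : (0 : ℝ) ≤ k := Nat.cast_nonneg k
  linarith

/-- linear growth -/
def Lin (g : ℕ → ℕ) : Prop := ∃ c : ℝ, 0 ≤ c ∧ ∀ k, (g k : ℝ) ≤ c * ((k : ℝ) + 1)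

theorem lin_const (b : ℕ) : Lin (fun _ => b) :=
  ⟨b, Nat.cast_nonneg b, fun k => by
    have h1 : (0 : ℝ) ≤ b := Nat.cast_nonneg b
    have h2 : (0 : ℝ) ≤ k := Nat.cast_nonneg k
    nlinarith⟩

theorem lin_id : Lin (fun k => k) :=
  ⟨1, by norm_num, fun k => by
    have h2 : (0 : ℝ) ≤ k := Nat.cast_nonneg k
    show (k : ℝ) ≤ _
    linarith⟩

theorem lin_add {g h : ℕ → ℕ} (hg : Lin g) (hh : Lin h) : Lin (fun k => g k + h k) := by
  obtain ⟨c, hc, h1⟩ := hg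
  obtain ⟨d, hd, h2⟩ := hh
  refine ⟨c + d, by linarith, fun k => ?_⟩
  have := h1 k
  have := h2 k
  push_cast
  linarith

theorem lin_mul (b : ℕ) {g : ℕ → ℕ} (hg : Lin g) : Lin (fun k => b * g k) := by
  obtain ⟨c, hc, h1⟩ := hg
  refine ⟨b * c, mul_nonneg (Nat.cast_nonneg b) hc, fun k => ?_⟩
  have := mul_le_mul_of_nonneg_left (h1 k) (Nat.cast_nonneg b : (0 : ℝ) ≤ b)
  push_cast
  linarith

theorem lin_Dq (t : ℕ) : Lin (fun k => Dq k t) := by
  induction t with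
  | zero => exact lin_mul 2 lin_id
  | succ t ih => exact lin_add (lin_add (lin_mul 2 ih) (lin_mul 4 lin_id)) (lin_const 6)

theorem lin_th {D : ℕ → ℕ} (hD : Lin D) : Lin (fun k => th k (D k)) :=
  lin_add (lin_add hD (lin_mul 2 lin_id)) (lin_const 2)

theorem lin_kk {D : ℕ → ℕ} (hD : Lin D) : Lin (fun k => kk k (D k)) :=
  lin_add (lin_add hD lin_id) (lin_const 1)

theorem lin_S00 (r : ℕ) {D : ℕ → ℕ} (hD : Lin D) : Lin (fun k => S00 r k (D k)) :=
  lin_add (lin_add (lin_mul r (lin_th hD)) (lin_mul 2 (lin_kk hD))) (lin_const 2)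

theorem tt_le (N t : ℕ) (h : 2 * (N : ℝ) < (3 / 2 : ℝ) ^ t) : tt N ≤ t := by
  unfold tt
  exact Nat.find_min' _ h

theorem tt_bound (r : ℕ) {S : ℕ → ℕ} (hS : Lin S) : ∃ C : ℝ, 0 ≤ C ∧
    ∀ k, (tt ((r * S k).factorial * r.factorial) : ℝ) ≤ C * EE k := by
  obtain ⟨c, hc, h1⟩ := lin_add (lin_mul r hS) (lin_const r)
  set d := c + 1 with hd
  have hd1 : 1 ≤ d := by linarith
  have hlogd : 0 ≤ Real.log d := Real.log_nonneg hd1
  refine ⟨5 / 2 * (d * (2 * Real.log d + 1)) + 6, by positivity, fun k => ?_⟩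
  set a' := r * S k + r with ha'
  obtain ⟨t, ht1, ht2⟩ := Pool.Agent.TH87.RVE.exists_t a'
  have h2 : (r * S k).factorial * r.factorial ≤ a'.factorial :=
    Nat.le_of_dvd (Nat.factorial_pos _) (Nat.factorial_mul_factorial_dvd_factorial_add _ _)
  have h3 : tt ((r * S k).factorial * r.factorial) ≤ t := by
    apply tt_le
    refine lt_of_le_of_lt ?_ ht1
    have : (((r * S k).factorial * r.factorial : ℕ) : ℝ) ≤ (a'.factorial : ℝ) := by
      exact_mod_cast h2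
    linarith
  have h4 : (tt ((r * S k).factorial * r.factorial) : ℝ) ≤ 5 / 2 * (a' * Real.log a') + 3 := by
    refine le_trans ?_ ht2
    exact_mod_cast h3
  have hk0 : (0 : ℝ) ≤ k := Nat.cast_nonneg k
  have h5 : (a' : ℝ) ≤ d * ((k : ℝ) + 1) := by
    have := h1 k
    rw [hd]
    have e : ((a' : ℕ) : ℝ) ≤ c * ((k : ℝ) + 1) := by
      rw [ha']; exact this
    nlinarith
  have h6 : (a' : ℝ) * Real.log a' ≤ d * ((k : ℝ) + 1) * Real.log (d * ((k : ℝ) + 1)) := by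
    rcases Nat.eq_zero_or_pos a' with h0 | h0
    · rw [h0]
      simp only [Nat.cast_zero, zero_mul]
      apply mul_nonneg (by positivity)
      apply Real.log_nonneg
      nlinarith
    · have h7 : (1 : ℝ) ≤ a' := by exact_mod_cast h0
      apply mul_le_mul h5 (Real.log_le_log (by linarith) h5) (Real.log_nonneg h7) (by positivity)
  have h8 : Real.log (d * ((k : ℝ) + 1)) ≤ (2 * Real.log d + 1) * Real.log ((k : ℝ) + 2) := by
    rw [Real.log_mul (by linarith) (by linarith)]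
    have h9 : Real.log ((k : ℝ) + 1) ≤ Real.log ((k : ℝ) + 2) :=
      Real.log_le_log (by linarith) (by linarith)
    have h10 := half_le_log k
    nlinarith
  have h11 : (a' : ℝ) * Real.log a' ≤ d * (2 * Real.log d + 1) * EE k := by
    refine h6.trans ?_
    have := mul_le_mul_of_nonneg_left h8 (by positivity : (0 : ℝ) ≤ d * ((k : ℝ) + 1))
    unfold EE
    nlinarith [this]
  have h12 := EE_half k
  nlinarith

theorem FB_bound (r : ℕ) {D S : ℕ → ℕ} (hD : Lin D) (hS : Lin S) : ∃ C : ℝ, 0 ≤ C ∧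
    ∀ k, (FB r k (D k) (S k) : ℝ) + 1 ≤ C * EE k ^ 2 := by
  obtain ⟨c1, hc1, h1⟩ := tt_bound r hS
  obtain ⟨c2, hc2, h2⟩ := lin_mul r (lin_th hD)
  obtain ⟨c3, hc3, h3⟩ := lin_mul r (lin_kk hD)
  obtain ⟨c4, hc4, h4⟩ := lin_add (lin_mul r hS) (lin_mul r (lin_th hD))
  refine ⟨c1 ^ 2 + 4 * (c2 * c3) + 4 * c4 + 4, by positivity, fun k => ?_⟩
  have g1 := h1 k
  have g2 := h2 k
  have g3 := h3 k
  have g4 := h4 k
  have e1 := EE_ge k
  have e2 := EE_half k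
  have hk0 : (0 : ℝ) ≤ k := Nat.cast_nonneg k
  have f1 : (tt ((r * S k).factorial * r.factorial) : ℝ) ^ 2 ≤ c1 ^ 2 * EE k ^ 2 := by
    rw [← mul_pow]
    exact pow_le_pow_left₀ (Nat.cast_nonneg _) g1 2
  have f2 : (((r * th k (D k)) * (r * kk k (D k)) : ℕ) : ℝ) ≤ 4 * (c2 * c3) * EE k ^ 2 := by
    rw [Nat.cast_mul]
    have a1 : ((r * th k (D k) : ℕ) : ℝ) ≤ c2 * (2 * EE k) :=
      g2.trans (mul_le_mul_of_nonneg_left e1 hc2)
    have a2 : ((r * kk k (D k) : ℕ) : ℝ) ≤ c3 * (2 * EE k) :=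
      g3.trans (mul_le_mul_of_nonneg_left e1 hc3)
    have a3 := mul_le_mul a1 a2 (Nat.cast_nonneg _)
      (mul_nonneg hc2 (by linarith : (0 : ℝ) ≤ 2 * EE k))
    nlinarith
  have f3 : ((r * S k + r * th k (D k) : ℕ) : ℝ) ≤ 4 * c4 * EE k ^ 2 := by
    have a1 : ((r * S k + r * th k (D k) : ℕ) : ℝ) ≤ c4 * (2 * EE k) :=
      g4.trans (mul_le_mul_of_nonneg_left e1 hc4)
    have a2 : c4 * (2 * EE k) ≤ 4 * c4 * EE k ^ 2 := by
      have : (0 : ℝ) ≤ c4 * EE k * (2 * EE k - 1) := by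
        apply mul_nonneg (mul_nonneg hc4 (by linarith)) (by linarith)
      nlinarith
    linarith
  have f4 : (1 : ℝ) ≤ 4 * EE k ^ 2 := by nlinarith
  have e : (FB r k (D k) (S k) : ℝ) = (tt ((r * S k).factorial * r.factorial) : ℝ) ^ 2 +
      (((r * th k (D k)) * (r * kk k (D k)) : ℕ) : ℝ) +
      ((r * S k + r * th k (D k) : ℕ) : ℝ) := by
    unfold FB
    push_cast
    ring
  rw [e]
  nlinarith

theorem BB_bound (r : ℕ) : ∃ C : ℝ, 0 ≤ C ∧ ∀ k, (BB r k : ℝ) ≤ C * EE k ^ 2 := by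
  have h : ∀ t u : ℕ, ∃ C : ℝ, 0 ≤ C ∧
      ∀ k, (FB r k (Dq k t) (S00 r k (Dq k t) + 2 * u) : ℝ) + 1 ≤ C * EE k ^ 2 := fun t u =>
    FB_bound r (lin_Dq t) (lin_add (lin_S00 r (lin_Dq t)) (lin_const (2 * u)))
  choose C hC0 hC using h
  refine ⟨∑ t ∈ range (r * r + 1), ∑ u ∈ range (r + 1), C t u,
    sum_nonneg (fun t _ => sum_nonneg (fun u _ => hC0 t u)), fun k => ?_⟩
  unfold BB
  rw [Nat.cast_sum, sum_mul]
  apply sum_le_sum
  intro t _
  rw [Nat.cast_sum, sum_mul]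
  apply sum_le_sum
  intro u _
  have := hC t u k
  push_cast
  exact this

end Pool.Agent.TH403.FLP
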