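import Pool.Agent.TH403.FLP.Main
import Pool.Agent.TH87.RVE.Fin

set_option autoImplicit false
set_option linter.unusedSectionVars false

/-!
# Flipped graphs: from a partition to near twins
-/

namespace Pool.Agent.TH403.FLP

open Finset Classical
open Pool.Agent.H234RC (Hypo NonIso)
open Pool.Agent.TH87.RVE (comps comp rch RR comp_closed_eq comp_of_mem comp_closed comps_sub
  comps_nonempty mem_comps comp_self lt_sq)

variable {V : Type} [Fintype V]

/-! ### components -/

/-- removing vertices -/
theorem comps_le_add (K : SimpleGraph V) (U W : Finset V) (hUW : U ⊆ W) :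
    (comps K W).card ≤ (comps K U).card + (W \ U).card := by
  have h : comps K W ⊆ comps K U ∪ (W \ U).image (comp K W) := by
    intro D hD
    rw [mem_union]
    by_cases hDU : D ⊆ U
    · left
      obtain ⟨x, hx⟩ := comps_nonempty K W D hD
      have hDW := comps_sub K W D hD
      have e1 := comp_closed_eq K W D hDW
        (fun a ha b hb hab => comp_closed K W D hD a b ha hb hab) x hx
      have e2 := comp_closed_eq K U D hDU
        (fun a ha b hb hab => comp_closed K W D hD a b ha (hUW hb) hab) x hx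
      rw [mem_comps]
      refine ⟨x, hDU hx, ?_⟩
      rw [e2, ← e1]
      exact comp_of_mem K W D hD x hx
    · right
      rw [not_subset] at hDU
      obtain ⟨x, hx, hxU⟩ := hDU
      rw [mem_image]
      exact ⟨x, mem_sdiff.mpr ⟨comps_sub K W D hD hx, hxU⟩, comp_of_mem K W D hD x hx⟩
  calc (comps K W).card ≤ (comps K U ∪ (W \ U).image (comp K W)).card := card_le_card h
    _ ≤ (comps K U).card + ((W \ U).image (comp K W)).card := card_union_le _ _
    _ ≤ _ := Nat.add_le_add_left card_image_le _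

/-- adding vertices of small degree -/
theorem comps_le_add_deg (K : SimpleGraph V) (U W : Finset V) (hUW : U ⊆ W) (b : ℕ)
    (hb : ∀ y ∈ W \ U, (W.filter (fun x => K.Adj y x)).card ≤ b) :
    (comps K U).card ≤ (comps K W).card + (W \ U).card * b := by
  have h : comps K U ⊆ comps K W ∪ (W \ U).biUnion
      (fun y => (W.filter (fun x => K.Adj y x)).image (comp K U)) := by
    intro D hD
    have hDs := comps_sub K U D hD
    rw [mem_union]
    by_cases hF : ∃ x ∈ D, ∃ y ∈ W \ U, K.Adj x y
    · right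
      obtain ⟨x, hx, y, hy, hadj⟩ := hF
      rw [mem_biUnion]
      exact ⟨y, hy, mem_image.mpr ⟨x, mem_filter.mpr ⟨hUW (hDs hx), hadj.symm⟩,
        comp_of_mem K U D hD x hx⟩⟩
    · left
      push Not at hF
      have hcl : ∀ x ∈ D, ∀ y ∈ W, K.Adj x y → y ∈ D := by
        intro x hx y hy hadj
        have hyU : y ∈ U := by
          by_contra hyU
          exact hF x hx y (mem_sdiff.mpr ⟨hy, hyU⟩) hadj
        exact comp_closed K U D hD x y hx hyU hadj
      obtain ⟨x, hx⟩ := comps_nonempty K U D hD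
      rw [mem_comps]
      refine ⟨x, hUW (hDs hx), ?_⟩
      rw [comp_closed_eq K W D (hDs.trans hUW) hcl x hx,
        ← comp_closed_eq K U D hDs (fun x hx y hy h => comp_closed K U D hD x y hx hy h) x hx]
      exact comp_of_mem K U D hD x hx
  calc (comps K U).card ≤ _ := card_le_card h
    _ ≤ (comps K W).card + _ := card_union_le _ _
    _ ≤ (comps K W).card + (W \ U).card * b := by
        apply Nat.add_le_add_left
        calc _ ≤ ∑ y ∈ W \ U, ((W.filter (fun x => K.Adj y x)).image (comp K U)).card :=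
              card_biUnion_le
          _ ≤ ∑ _y ∈ W \ U, b := by
              apply sum_le_sum
              intro y hy
              exact card_image_le.trans (hb y hy)
          _ = (W \ U).card * b := by rw [sum_const, smul_eq_mul]

/-! ### parts -/

theorem card_le_parts {r : ℕ} (f : V → Fin r) (T : Finset V) (b : ℕ)
    (h : ∀ i, (T.filter (fun x => f x = i)).card ≤ b) : T.card ≤ r * b := by
  rw [card_eq_sum_card_fiberwise (f := f) (t := univ) (fun x _ => mem_univ _)]
  calc ∑ i, (T.filter (fun x => f x = i)).card ≤ ∑ _i : Fin r, b := sum_le_sum (fun i _ => h i)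
    _ = r * b := by rw [sum_const, card_univ, Fintype.card_fin, smul_eq_mul]

section parts

variable (G : SimpleGraph V) {r : ℕ} (f : V → Fin r) (M : Fin r → Fin r → Prop)
  (hM : ∀ i j, M i j → M j i) (k : ℕ)

/-- the part with the index `i` -/
noncomputable def part (f : V → Fin r) (i : Fin r) : Finset V := univ.filter (fun x => f x = i)

theorem mem_part (i : Fin r) (x : V) : x ∈ part f i ↔ f x = i := by
  unfold part
  rw [mem_filter]
  exact ⟨fun h => h.2, fun h => ⟨mem_univ _, h⟩⟩

/-- neighbours in the flipped graph -/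
noncomputable def nb (x : V) : Finset V :=
  univ.filter (fun y => y ≠ x ∧ ¬ (G.Adj x y ↔ M (f x) (f y)))

theorem mem_nb (x y : V) : y ∈ nb G f M x ↔ y ≠ x ∧ ¬ (G.Adj x y ↔ M (f x) (f y)) := by
  unfold nb
  rw [mem_filter]
  exact ⟨fun h => h.2, fun h => ⟨mem_univ _, h⟩⟩

variable (hk : ∀ x, (nb G f M x).card ≤ k)

include hk in
theorem dd_part (x y : V) (h : f x = f y) : dd G x y ≤ 2 * k := by
  have h1 : ds G x y ⊆ nb G f M x ∪ nb G f M y := by
    intro z hz
    rw [mem_ds] at hz
    rw [mem_union, mem_nb, mem_nb]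
    by_contra hcon
    rw [not_or] at hcon
    have h2 : G.Adj x z ↔ M (f x) (f z) := by
      by_contra h3
      exact hcon.1 ⟨hz.1, h3⟩
    have h3 : G.Adj y z ↔ M (f y) (f z) := by
      by_contra h3
      exact hcon.2 ⟨hz.2.1, h3⟩
    apply hz.2.2
    rw [h2, h3, h]
  have h2 := card_le_card h1
  have h3 := card_union_le (nb G f M x) (nb G f M y)
  have h4 := hk x
  have h5 := hk y
  unfold dd
  omega

include hk in
theorem row_eq (D : ℕ) (x y : V) (l : Fin r) (h : dd G x y ≤ D)
    (hl : D + 2 * k + 2 < (part f l).card) : M (f x) l ↔ M (f y) l := by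
  by_contra hcon
  have h1 : part f l ⊆ ds G x y ∪ (nb G f M x ∪ (nb G f M y ∪ {x, y})) := by
    intro z hz
    rw [mem_part] at hz
    rw [mem_union, mem_union, mem_union, mem_insert, mem_singleton, mem_nb, mem_nb, mem_ds]
    by_contra hc
    rw [not_or, not_or, not_or, not_or] at hc
    obtain ⟨c1, c2, c3, c4, c5⟩ := hc
    have h2 : G.Adj x z ↔ M (f x) (f z) := by
      by_contra h3
      exact c2 ⟨c4, h3⟩
    have h3 : G.Adj y z ↔ M (f y) (f z) := by
      by_contra h3
      exact c3 ⟨c5, h3⟩
    have h4 : G.Adj x z ↔ G.Adj y z := by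
      by_contra h4
      exact c1 ⟨c4, c5, h4⟩
    rw [h2, h3, hz] at h4
    exact hcon h4
  have h2 := card_le_card h1
  have h3 := card_union_le (ds G x y) (nb G f M x ∪ (nb G f M y ∪ {x, y}))
  have h4 := card_union_le (nb G f M x) (nb G f M y ∪ {x, y})
  have h5 := card_union_le (nb G f M y) {x, y}
  have h6 : ({x, y} : Finset V).card ≤ 2 := card_le_two
  have h7 := hk x
  have h8 := hk y
  unfold dd at h
  omega

/-- candidates for the threshold -/
def Dq (k : ℕ) : ℕ → ℕ
  | 0 => 2 * k
  | t + 1 => 2 * Dq k t + 4 * k + 6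

theorem Dq_mono (k : ℕ) : Monotone (Dq k) := by
  apply monotone_nat_of_le_succ
  intro t
  show Dq k t ≤ 2 * Dq k t + 4 * k + 6
  omega

theorem Dq_ge (k t : ℕ) : 2 * k ≤ Dq k t := Dq_mono k (Nat.zero_le t)

include hk in
theorem exists_D : ∃ t < r * r + 1, ∀ x y, dd G x y ≤ Dq k t ∨ 2 * Dq k t + 5 ≤ dd G x y := by
  by_contra hcon
  push Not at hcon
  have h : ∀ t : Fin (r * r + 1), ∃ x y, Dq k t < dd G x y ∧ dd G x y < 2 * Dq k t + 5 := by
    intro t
    obtain ⟨x, y, h1, h2⟩ := hcon t t.2
    exact ⟨x, y, h1, h2⟩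
  choose x y h1 h2 using h
  have hc : Fintype.card (Fin r × Fin r) < Fintype.card (Fin (r * r + 1)) := by
    rw [Fintype.card_prod, Fintype.card_fin, Fintype.card_fin]
    omega
  obtain ⟨t, t', hne, he⟩ := Fintype.exists_ne_map_eq_of_card_lt (fun t => (f (x t), f (y t))) hc
  have main : ∀ t t' : Fin (r * r + 1), (t : ℕ) < t' → f (x t) = f (x t') → f (y t) = f (y t') →
      False := by
    intro t t' hlt e1 e2
    have a1 := dd_part G f M k hk (x t') (x t) e1.symm
    have a2 := dd_part G f M k hk (y t) (y t') e2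
    have a3 := dd_tri G (x t') (x t) (y t')
    have a4 := dd_tri G (x t) (y t) (y t')
    have a5 := h2 t
    have a6 := h1 t'
    have a7 : Dq k ((t : ℕ) + 1) ≤ Dq k t' := Dq_mono k hlt
    have a8 : Dq k ((t : ℕ) + 1) = 2 * Dq k t + 4 * k + 6 := rfl
    omega
  have e1 := congrArg Prod.fst he
  have e2 := congrArg Prod.snd he
  simp only at e1 e2
  rcases lt_trichotomy (t : ℕ) (t' : ℕ) with h | h | h
  · exact main t t' h e1 e2
  · exact hne (Fin.ext h)
  · exact main t' t h e1.symm e2.symm

include hk in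
theorem cl_part (D : ℕ) (hD : 2 * k ≤ D)
    (hg : ∀ x y, dd G x y ≤ D ∨ 2 * D + 2 ≤ dd G x y) (x y : V) (h : f x = f y) :
    cl G D x = cl G D y :=
  (cl_eq G D hg x y).mpr ((dd_part G f M k hk x y h).trans hD)

include hk in
theorem exists_S (D S0 : ℕ) (hD : 2 * k ≤ D)
    (hg : ∀ x y, dd G x y ≤ D ∨ 2 * D + 2 ≤ dd G x y) :
    ∃ u < r + 1, ∀ x, (cl G D x).card ≤ S0 + 2 * u ∨ S0 + 2 * u + 3 ≤ (cl G D x).card := by
  by_contra hcon
  push Not at hcon
  have h : ∀ u : Fin (r + 1), ∃ x, S0 + 2 * u < (cl G D x).card ∧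
      (cl G D x).card < S0 + 2 * u + 3 := by
    intro u
    obtain ⟨x, h1, h2⟩ := hcon u u.2
    exact ⟨x, h1, h2⟩
  choose x h1 h2 using h
  have hc : Fintype.card (Fin r) < Fintype.card (Fin (r + 1)) := by
    rw [Fintype.card_fin, Fintype.card_fin]
    omega
  obtain ⟨t, t', hne, he⟩ := Fintype.exists_ne_map_eq_of_card_lt (fun t => f (x t)) hc
  have e := cl_part G f M k hk D hD hg _ _ he
  have a1 := h1 t
  have a2 := h2 t
  have a3 := h1 t'
  have a4 := h2 t'
  rw [e] at a1 a2
  have : (t : ℕ) ≠ t' := fun h => hne (Fin.ext h)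
  omega

end parts

end Pool.Agent.TH403.FLP
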