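import Pool.Agent.TH403.FLP.Abs

set_option autoImplicit false
set_option linter.unusedSectionVars false

/-!
# Flipped graphs: classes of near twins are recognised from the cards
-/

namespace Pool.Agent.TH403.FLP

open Finset Classical
open Pool.Agent.H234RC (Hypo NonIso)
open Pool.Agent.TH87.RVE (comps comp rch RR)

variable {V : Type} [Fintype V]

theorem comps_congr (K K' : SimpleGraph V) (U : Finset V)
    (h : ∀ x ∈ U, ∀ y ∈ U, (K.Adj x y ↔ K'.Adj x y)) : comps K U = comps K' U := by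
  have h1 : RR K U = RR K' U := by
    funext a b
    apply propext
    unfold RR
    constructor
    · rintro ⟨ha, hb, hab⟩
      exact ⟨ha, hb, (h a ha b hb).mp hab⟩
    · rintro ⟨ha, hb, hab⟩
      exact ⟨ha, hb, (h a ha b hb).mpr hab⟩
  unfold comps comp rch
  rw [h1]

/-- the vertices which distinguish `x` and `y` -/
noncomputable def ds (K : SimpleGraph V) (x y : V) : Finset V :=
  univ.filter (fun z => z ≠ x ∧ z ≠ y ∧ ¬ (K.Adj x z ↔ K.Adj y z))

/-- the number of vertices which distinguish `x` and `y` -/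
noncomputable def dd (K : SimpleGraph V) (x y : V) : ℕ := (ds K x y).card

theorem mem_ds (K : SimpleGraph V) (x y z : V) :
    z ∈ ds K x y ↔ z ≠ x ∧ z ≠ y ∧ ¬ (K.Adj x z ↔ K.Adj y z) := by
  unfold ds
  rw [mem_filter]
  exact ⟨fun h => h.2, fun h => ⟨mem_univ _, h⟩⟩

theorem dd_self (K : SimpleGraph V) (x : V) : dd K x x = 0 := by
  unfold dd
  rw [card_eq_zero]
  ext z
  rw [mem_ds]
  constructor
  · rintro ⟨_, _, h⟩
    exact absurd Iff.rfl h
  · intro h
    exact absurd h (notMem_empty z)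

theorem dd_comm (K : SimpleGraph V) (x y : V) : dd K x y = dd K y x := by
  unfold dd
  congr 1
  ext z
  rw [mem_ds, mem_ds]
  constructor
  · rintro ⟨a, b, c⟩
    exact ⟨b, a, fun h => c h.symm⟩
  · rintro ⟨a, b, c⟩
    exact ⟨b, a, fun h => c h.symm⟩

theorem dd_tri (K : SimpleGraph V) (x y z : V) : dd K x z ≤ dd K x y + dd K y z + 1 := by
  have h : ds K x z ⊆ (ds K x y ∪ ds K y z) ∪ {y} := by
    intro w hw
    rw [mem_ds] at hw
    rw [mem_union, mem_union, mem_singleton, mem_ds, mem_ds]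
    by_cases hy : w = y
    · right; exact hy
    · left
      by_cases h1 : K.Adj x w ↔ K.Adj y w
      · right; exact ⟨hy, hw.2.1, fun h2 => hw.2.2 (h1.trans h2)⟩
      · left; exact ⟨hw.1, hy, h1⟩
  have h1 := card_le_card h
  have h2 := card_union_le (ds K x y ∪ ds K y z) {y}
  have h3 := card_union_le (ds K x y) (ds K y z)
  rw [card_singleton] at h2
  unfold dd
  omega

theorem hypo_symm {G H : SimpleGraph V} {π : V → Equiv.Perm V} (hH : Hypo G H π) :
    Hypo H G (fun v => (π v).symm) := by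
  refine ⟨fun v => by rw [Equiv.symm_apply_eq, hH.fix], fun v x y hx hy => ?_⟩
  have h : ∀ z, z ≠ v → (π v).symm z ≠ v := by
    intro z hz h
    apply hz
    have := congrArg (π v) h
    rwa [Equiv.apply_symm_apply, hH.fix] at this
  have := hH.adj v _ _ (h x hx) (h y hy)
  rw [Equiv.apply_symm_apply, Equiv.apply_symm_apply] at this
  exact this.symm

theorem pi_ne {G H : SimpleGraph V} {π : V → Equiv.Perm V} (hH : Hypo G H π) (v z : V) :
    π v z ≠ v ↔ z ≠ v := by
  rw [← (π v).injective.ne_iff (x := z), hH.fix]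

theorem pi_symm_ne {G H : SimpleGraph V} {π : V → Equiv.Perm V} (hH : Hypo G H π) (v z : V) :
    (π v).symm z ≠ v ↔ z ≠ v := by
  rw [← pi_ne hH v, Equiv.apply_symm_apply]

theorem dd_le {G H : SimpleGraph V} {π : V → Equiv.Perm V} (hH : Hypo G H π) (v x y : V)
    (hx : x ≠ v) (hy : y ≠ v) : dd G x y ≤ dd H (π v x) (π v y) + 1 := by
  have h1 : ((ds G x y).erase v).map (π v).toEmbedding ⊆ ds H (π v x) (π v y) := by
    intro w hw
    obtain ⟨z, hz, rfl⟩ := mem_map.mp hw
    rw [mem_erase, mem_ds] at hz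
    obtain ⟨hzv, hzx, hzy, hz⟩ := hz
    rw [mem_ds]
    refine ⟨fun h => hzx ((π v).injective h), fun h => hzy ((π v).injective h), ?_⟩
    intro h
    apply hz
    have h2 := hH.adj v x z hx hzv
    have h3 := hH.adj v y z hy hzv
    exact h2.symm.trans (h.trans h3)
  have h2 := card_le_card h1
  rw [card_map] at h2
  have h3 : (ds G x y).card ≤ ((ds G x y).erase v).card + 1 := by
    by_cases h : v ∈ ds G x y
    · rw [card_erase_of_mem h]; omega
    · rw [erase_eq_of_notMem h]; omega
  unfold dd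
  omega

theorem dd_ge {G H : SimpleGraph V} {π : V → Equiv.Perm V} (hH : Hypo G H π) (v x y : V)
    (hx : x ≠ v) (hy : y ≠ v) : dd H (π v x) (π v y) ≤ dd G x y + 1 := by
  have := dd_le (hypo_symm hH) v (π v x) (π v y) ((pi_ne hH v x).mpr hx) ((pi_ne hH v y).mpr hy)
  simpa using this

/-- the vertices near to `x` -/
noncomputable def cl (K : SimpleGraph V) (D : ℕ) (x : V) : Finset V :=
  univ.filter (fun y => dd K x y ≤ D)

theorem mem_cl (K : SimpleGraph V) (D : ℕ) (x y : V) : y ∈ cl K D x ↔ dd K x y ≤ D := by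
  unfold cl
  rw [mem_filter]
  exact ⟨fun h => h.2, fun h => ⟨mem_univ _, h⟩⟩

theorem self_mem_cl (K : SimpleGraph V) (D : ℕ) (x : V) : x ∈ cl K D x := by
  rw [mem_cl, dd_self]
  exact Nat.zero_le _

theorem cl_eq (K : SimpleGraph V) (D : ℕ) (hg : ∀ x y, dd K x y ≤ D ∨ 2 * D + 2 ≤ dd K x y)
    (x y : V) : cl K D x = cl K D y ↔ dd K x y ≤ D := by
  constructor
  · intro h
    rw [← mem_cl, h]
    exact self_mem_cl K D y
  · intro h
    ext z
    rw [mem_cl, mem_cl]
    constructor
    · intro hz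
      have h1 := dd_tri K y x z
      rw [dd_comm K y x] at h1
      rcases hg y z with h2 | h2
      · exact h2
      · omega
    · intro hz
      have h1 := dd_tri K x y z
      rcases hg x z with h2 | h2
      · exact h2
      · omega

theorem exists_ne2 (hn : 3 ≤ Fintype.card V) (x y : V) : ∃ v : V, x ≠ v ∧ y ≠ v := by
  have h : ({x, y} : Finset V).card < (univ : Finset V).card := by
    rw [card_univ]
    exact lt_of_le_of_lt card_le_two (by omega)
  obtain ⟨v, _, hv⟩ := exists_mem_notMem_of_card_lt_card h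
  rw [mem_insert, mem_singleton, not_or] at hv
  exact ⟨v, fun e => hv.1 e.symm, fun e => hv.2 e.symm⟩

section recog

variable {G H : SimpleGraph V} {π : V → Equiv.Perm V} (hH : Hypo G H π) (D S : ℕ)
  (h1 : ∀ x y, dd G x y ≤ D ∨ 2 * D + 5 ≤ dd G x y)
  (h2 : ∀ x, (cl G D x).card ≤ S ∨ S + 3 ≤ (cl G D x).card)

include hH h1 in
theorem gapH (hn : 3 ≤ Fintype.card V) (x y : V) :
    dd H x y ≤ D + 1 ∨ 2 * (D + 1) + 2 ≤ dd H x y := by
  obtain ⟨v, hx, hy⟩ := exists_ne2 hn x y
  have hx' := (pi_symm_ne hH v x).mpr hx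
  have hy' := (pi_symm_ne hH v y).mpr hy
  have h3 := dd_le hH v _ _ hx' hy'
  have h4 := dd_ge hH v _ _ hx' hy'
  rw [Equiv.apply_symm_apply, Equiv.apply_symm_apply] at h3 h4
  rcases h1 ((π v).symm x) ((π v).symm y) with h5 | h5 <;> omega

include hH h1 in
theorem rel_iff (v x y : V) (hx : x ≠ v) (hy : y ≠ v) :
    dd H (π v x) (π v y) ≤ D + 1 ↔ dd G x y ≤ D := by
  have h3 := dd_le hH v x y hx hy
  have h4 := dd_ge hH v x y hx hy
  rcases h1 x y with h5 | h5 <;> omega

include hH h1 in
theorem map_cl (v x : V) (hx : x ≠ v) :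
    ((cl G D x).erase v).map (π v).toEmbedding = (cl H (D + 1) (π v x)).erase v := by
  ext y
  rw [mem_map_equiv, mem_erase, mem_erase, mem_cl, mem_cl, pi_symm_ne hH]
  constructor
  · rintro ⟨hy, h⟩
    refine ⟨hy, ?_⟩
    have h3 := (rel_iff hH D h1 v x _ hx ((pi_symm_ne hH v y).mpr hy)).mpr h
    rwa [Equiv.apply_symm_apply] at h3
  · rintro ⟨hy, h⟩
    refine ⟨hy, ?_⟩
    apply (rel_iff hH D h1 v x _ hx ((pi_symm_ne hH v y).mpr hy)).mp
    rwa [Equiv.apply_symm_apply]

include hH h1 in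
theorem card_cl (v x : V) (hx : x ≠ v) :
    ((cl G D x).erase v).card = ((cl H (D + 1) (π v x)).erase v).card := by
  rw [← map_cl hH D h1 v x hx, card_map]

theorem card_erase_bounds (s : Finset V) (v : V) :
    (s.erase v).card ≤ s.card ∧ s.card ≤ (s.erase v).card + 1 := by
  by_cases h : v ∈ s
  · have := card_pos.mpr ⟨v, h⟩
    rw [card_erase_of_mem h]; omega
  · rw [erase_eq_of_notMem h]; omega

/-- vertices in small classes -/
noncomputable def sm (K : SimpleGraph V) (D S : ℕ) : Finset V :=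
  univ.filter (fun x => (cl K D x).card ≤ S)

theorem mem_sm (K : SimpleGraph V) (D S : ℕ) (x : V) : x ∈ sm K D S ↔ (cl K D x).card ≤ S := by
  unfold sm
  rw [mem_filter]
  exact ⟨fun h => h.2, fun h => ⟨mem_univ _, h⟩⟩

include hH h1 h2 in
theorem sm_iff (v x : V) (hx : x ≠ v) :
    π v x ∈ sm H (D + 1) (S + 1) ↔ x ∈ sm G D S := by
  rw [mem_sm, mem_sm]
  have h3 := card_cl hH D h1 v x hx
  have h4 := card_erase_bounds (cl G D x) v
  have h5 := card_erase_bounds (cl H (D + 1) (π v x)) v
  rcases h2 x with h6 | h6 <;> omega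

include hH h1 h2 in
theorem sm_eq (hn : 3 ≤ Fintype.card V) (hne : ∃ x, x ∉ sm G D S) :
    sm G D S = sm H (D + 1) (S + 1) := by
  set A := sm G D S with hA
  set B := sm H (D + 1) (S + 1) with hB
  have hcard : ∀ v, (A.erase v).card = (B.erase v).card := by
    intro v
    have : (A.erase v).map (π v).toEmbedding = B.erase v := by
      ext y
      rw [mem_map_equiv, mem_erase, mem_erase, pi_symm_ne hH]
      constructor
      · rintro ⟨hy, h⟩
        refine ⟨hy, ?_⟩
        have h3 := (sm_iff hH D S h1 h2 v _ ((pi_symm_ne hH v y).mpr hy)).mpr h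
        rwa [Equiv.apply_symm_apply] at h3
      · rintro ⟨hy, h⟩
        refine ⟨hy, ?_⟩
        apply (sm_iff hH D S h1 h2 v _ ((pi_symm_ne hH v y).mpr hy)).mp
        rwa [Equiv.apply_symm_apply]
    rw [← this, card_map]
  obtain ⟨u, hu⟩ := hne
  ext v
  constructor
  · intro hvA
    by_contra hvB
    have e1 := hcard v
    rw [card_erase_of_mem hvA, erase_eq_of_notMem hvB] at e1
    have e2 := hcard u
    rw [erase_eq_of_notMem hu] at e2
    have e3 := card_erase_bounds B u
    have e4 := card_pos.mpr ⟨v, hvA⟩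
    omega
  · intro hvB
    by_contra hvA
    have e1 := hcard v
    rw [card_erase_of_mem hvB, erase_eq_of_notMem hvA] at e1
    have e4 := card_pos.mpr ⟨v, hvB⟩
    have hAe : A = ∅ := by
      by_contra hne
      obtain ⟨w, hw⟩ := nonempty_iff_ne_empty.mpr hne
      have e2 := hcard w
      rw [card_erase_of_mem hw] at e2
      have e3 := card_erase_bounds B w
      have e5 := card_pos.mpr ⟨w, hw⟩
      omega
    obtain ⟨w, hw, _⟩ := exists_ne2 hn v v
    have e2 := hcard w
    rw [hAe, erase_empty, card_empty] at e2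
    have e3 : v ∈ B.erase w := mem_erase.mpr ⟨hw, hvB⟩
    have e5 := card_pos.mpr ⟨v, e3⟩
    omega

include hH h1 h2 in
theorem sm_maps (hn : 3 ≤ Fintype.card V) (hne : ∃ x, x ∉ sm G D S) (v u : V) :
    π v u ∈ sm G D S ↔ u ∈ sm G D S := by
  by_cases h : u = v
  · subst h
    rw [hH.fix]
  · rw [← sm_iff hH D S h1 h2 v u h, ← sm_eq hH D S h1 h2 hn hne]

end recog

/-- a bijection defined by two maps with the same fibres -/
theorem exists_equiv {X I J : Type} (p : X → I) (q : X → J) (hp : Function.Surjective p)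
    (hq : Function.Surjective q) (h : ∀ x y, p x = p y ↔ q x = q y) :
    ∃ e : I ≃ J, ∀ x, e (p x) = q x := by
  have h0 : ∀ x, q (Function.surjInv hp (p x)) = q x := by
    intro x
    rw [← h, Function.surjInv_eq hp]
  refine ⟨Equiv.ofBijective (fun i => q (Function.surjInv hp i)) ⟨?_, ?_⟩, h0⟩
  · intro i j hij
    have h3 : q (Function.surjInv hp i) = q (Function.surjInv hp j) := hij
    rw [← h, Function.surjInv_eq hp, Function.surjInv_eq hp] at h3
    exact h3
  · intro j
    obtain ⟨x, rfl⟩ := hq j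
    exact ⟨p x, h0 x⟩

end Pool.Agent.TH403.FLP
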